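import Pool.Agent.R592.Ba.Defs

/-!
BAF-10: the weak Baumgartner axiom fails at the continuum for the Baire space.
-/

open Cardinal Set Pool.Agent.R592.Ba

namespace Pool.Agent.R676.Ba

/-- every open set contains a cylinder at every point -/
theorem cyl_sub {U : Set W} (hU : IsOpen U) {x : W} (hx : x ∈ U) :
    ∃ n : ℕ, ∀ y : W, (∀ i < n, y i = x i) → y ∈ U := by
  obtain ⟨v, ⟨x', n, rfl⟩, h1, h2⟩ :=
    (PiNat.isTopologicalBasis_cylinders (fun _ : ℕ => ℕ)).exists_subset_of_mem_open hx hU
  refine ⟨n, fun y hy => h2 ?_⟩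
  intro i hi
  rw [hy i hi]
  exact h1 i hi

/-- the eventually small sequences -/
def A2 : Set W := {x | ∀ᶠ m in Filter.atTop, x m < 2}

theorem kd (A : Set W) (hA : A2 ⊆ A) : KDense 𝔠 A := by
  rintro U hU ⟨x, hx⟩
  obtain ⟨n, hn⟩ := cyl_sub hU hx
  apply le_antisymm
  · calc #(↥(A ∩ U)) ≤ #W := mk_set_le _
      _ = 𝔠 := by simp [W]
  · let g : (ℕ → Bool) → ↥(A ∩ U) := fun b =>
      ⟨fun i => if i < n then x i else (if b (i - n) = true then 1 else 0), hA (by
        change ∀ᶠ m in Filter.atTop, _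
        filter_upwards [Filter.eventually_ge_atTop n] with m hm
        rw [if_neg (by omega)]
        split_ifs <;> norm_num), hn _ (by
        intro i hi
        rw [if_pos hi])⟩
    have hg : Function.Injective g := by
      intro b b' h
      funext i
      have h1 := congrFun (congrArg Subtype.val h) (i + n)
      simp only [g, Nat.add_sub_cancel, if_neg (show ¬ (i + n < n) by omega)] at h1
      by_cases e : b i = true <;> by_cases e' : b' i = true <;> simp_all
    calc 𝔠 = #(ℕ → Bool) := by simp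
      _ ≤ _ := mk_le_of_injective hg

/-- the closed pieces -/
def Cn (n : ℕ) : Set W := {x | ∀ m, n ≤ m → x m < 2}

theorem Cn_closed (n : ℕ) : IsClosed (Cn n) := by
  have : Cn n = ⋂ m : ℕ, ⋂ _ : n ≤ m, (fun x : W => x m) ⁻¹' {k | k < 2} := by
    ext x
    simp [Cn]
  rw [this]
  exact isClosed_iInter fun m => isClosed_iInter fun _ =>
    (isClosed_discrete _).preimage (continuous_apply m)

theorem wCont : WCont := by
  intro hBA
  obtain ⟨h⟩ := hBA Set.univ A2 (kd _ (subset_univ _)) (kd _ subset_rfl)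
  let u : W → (Set.univ : Set W) := fun w => ⟨w, mem_univ w⟩
  have hu : Continuous u := continuous_id.subtype_mk _
  let D : ℕ → Set W := fun n => {w | ((h (u w) : A2) : W) ∈ Cn n}
  have hD : ∀ n, IsClosed (D n) := fun n =>
    (Cn_closed n).preimage (continuous_subtype_val.comp (h.continuous.comp hu))
  have hDU : ⋃ n, D n = Set.univ := by
    rw [eq_univ_iff_forall]
    intro w
    obtain ⟨n, hn⟩ := Filter.eventually_atTop.mp (h (u w)).2
    exact mem_iUnion.mpr ⟨n, fun m hm => hn m hm⟩
  obtain ⟨n, w, hw⟩ := nonempty_interior_of_iUnion_of_closed hD hDU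
  -- the image of the interior is relatively open
  let k : A2 → W := fun a => ((h.symm a : (Set.univ : Set W)) : W)
  have hk : Continuous k := continuous_subtype_val.comp h.symm.continuous
  have hO : IsOpen (k ⁻¹' interior (D n)) := isOpen_interior.preimage hk
  obtain ⟨V, hV, hVe⟩ := isOpen_induced_iff.mp hO
  have hy : h (u w) ∈ Subtype.val ⁻¹' V := by
    rw [hVe]
    change k (h (u w)) ∈ interior (D n)
    have : k (h (u w)) = w := by simp [k, u]
    rw [this]
    exact hw
  obtain ⟨j, hj⟩ := cyl_sub hV hy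
  let y : W := (h (u w) : A2)
  let z : W := Function.update y (max n j) 5
  have hzA : z ∈ A2 := by
    have h1 : ∀ᶠ m in Filter.atTop, y m < 2 := (h (u w)).2
    change ∀ᶠ m in Filter.atTop, z m < 2
    filter_upwards [h1, Filter.eventually_gt_atTop (max n j)] with m hm1 hm2
    simp only [z]
    rw [Function.update_of_ne (by omega)]
    exact hm1
  have hzV : z ∈ V := hj z (by
    intro i hi
    simp only [z]
    rw [Function.update_of_ne (by omega)])
  have h2 : (⟨z, hzA⟩ : A2) ∈ k ⁻¹' interior (D n) := by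
    rw [← hVe]
    exact hzV
  have h3 : k ⟨z, hzA⟩ ∈ D n := interior_subset h2
  have h4 : h (u (k ⟨z, hzA⟩)) = ⟨z, hzA⟩ := by
    have : u (k ⟨z, hzA⟩) = h.symm ⟨z, hzA⟩ := Subtype.ext rfl
    rw [this, h.apply_symm_apply]
  have h5 : z ∈ Cn n := by
    have h6 : ((h (u (k ⟨z, hzA⟩)) : A2) : W) ∈ Cn n := h3
    rw [h4] at h6
    exact h6
  have h7 := h5 (max n j) (le_max_left _ _)
  simp [z] at h7

end Pool.Agent.R676.Ba
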